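import Pool.Agent.Y399.RD.C

/-!
# Lehmer's problem for polynomials and number fields of large discriminant

There is an absolute constant `c > 0` such that
`M(f) ≥ exp (c (log log (16 + T) / log (16 + T)) ^ 3)` for all `T > 0` and all irreducible
`f ∈ ℤ[X]` with `M(f) > 1`, of degree `n`, such that no quotient of two distinct roots is a root of
unity and `|disc f| ≥ (n / T) ^ n`.  The same holds for all algebraic integers `α ≠ 0`, not roots of
unity, with `ℚ(α ^ m) = K` for all `m ≥ 1`, of a number field `K` of degree `n` with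
`|disc K| ≥ (n / T) ^ n`.  In particular (fixed `T`) Lehmer's conjecture holds for such polynomials
and fields.  By Hadamard's inequality `|disc f| ≤ n ^ n M(f) ^ (2 n - 2)`, so the condition says that
the discriminant is as large as possible up to an exponential factor `T ^ n`; since `|disc f| ≥ 1`,
the case `T = n` is the theorem of Dobrowolski, with `log n` replaced in general by the logarithm of
`n / |disc f| ^ (1 / n)`.
-/

set_option autoImplicit false

open Polynomial NumberField Module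

namespace Pool.Agent.Results.MP_7ab245_nt.LargeDiscriminants

/-- The Mahler measure of an integer polynomial. -/
noncomputable def M (f : ℤ[X]) : ℝ := (f.map (Int.castRingHom ℂ)).mahlerMeasure

/-- No quotient of two distinct complex roots of `f` is a root of unity. -/
def Nondegenerate (f : ℤ[X]) : Prop :=
  ∀ z w : ℂ, aeval z f = 0 → aeval w f = 0 → z ≠ w → ∀ m : ℕ, 0 < m → z ^ m ≠ w ^ m

theorem result :
    (∃ c : ℝ, 0 < c ∧
      -- polynomials
      (∀ f : ℤ[X], Irreducible f → 1 < M f → Nondegenerate f →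
        ∀ T : ℝ, 0 < T → ((f.natDegree : ℝ) / T) ^ f.natDegree ≤ |(f.discr : ℝ)| →
        Real.exp (c * (Real.log (Real.log (16 + T)) / Real.log (16 + T)) ^ 3) ≤ M f) ∧
      -- number fields
      (∀ (K : Type) [Field K] [NumberField K] (α : 𝓞 K), α ≠ 0 →
        (∀ m : ℕ, 0 < m → α ^ m ≠ 1) →
        (∀ m : ℕ, 0 < m → IntermediateField.adjoin ℚ {(α : K) ^ m} = ⊤) →
        ∀ T : ℝ, 0 < T → ((finrank ℚ K : ℝ) / T) ^ finrank ℚ K ≤ |(discr K : ℝ)| →
        Real.exp (c * (Real.log (Real.log (16 + T)) / Real.log (16 + T)) ^ 3) ≤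
          M (minpoly ℤ (α : K)))) ∧
    -- Lehmer's conjecture for discriminants at least `(n / T) ^ n`, `T` fixed
    (∀ T : ℝ, 0 < T → ∃ μ : ℝ, 1 < μ ∧
      (∀ f : ℤ[X], Irreducible f → 1 < M f → Nondegenerate f →
        ((f.natDegree : ℝ) / T) ^ f.natDegree ≤ |(f.discr : ℝ)| → μ ≤ M f) ∧
      (∀ (K : Type) [Field K] [NumberField K] (α : 𝓞 K), α ≠ 0 →
        (∀ m : ℕ, 0 < m → α ^ m ≠ 1) →
        (∀ m : ℕ, 0 < m → IntermediateField.adjoin ℚ {(α : K) ^ m} = ⊤) →
        ((finrank ℚ K : ℝ) / T) ^ finrank ℚ K ≤ |(discr K : ℝ)| →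
        μ ≤ M (minpoly ℤ (α : K)))) := by
  obtain ⟨c, hc, h1, h2⟩ := Pool.Agent.Y399.RD.main
  refine ⟨⟨c, hc, fun f hf hM hnd T hT hd => h1 f hf hM hnd T hT hd,
    fun K _ _ α h0 hr hg T hT hd => h2 K α h0 hr hg T hT hd⟩, fun T hT => ?_⟩
  refine ⟨Real.exp (c * (Real.log (Real.log (16 + T)) / Real.log (16 + T)) ^ 3), ?_,
    fun f hf hM hnd hd => h1 f hf hM hnd T hT hd,
    fun K _ _ α h0 hr hg hd => h2 K α h0 hr hg T hT hd⟩
  rw [Real.one_lt_exp_iff]
  have h16 : Real.exp 1 < 16 + T := by
    have := Real.exp_one_lt_d9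
    linarith
  have hl1 : 1 < Real.log (16 + T) := by
    rw [Real.lt_log_iff_exp_lt (by linarith)]
    exact h16
  have hl2 : 0 < Real.log (Real.log (16 + T)) := Real.log_pos hl1
  have hl3 : 0 < Real.log (16 + T) := by linarith
  positivity

end Pool.Agent.Results.MP_7ab245_nt.LargeDiscriminants
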