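import Pool.Agent.Q188.LM.Main

/-!
# Lehmer's problem for integer matrices with few nonzero entries

Let `A` be an integer matrix of size `n`, with `r_i` nonzero entries in row `i`, and let
`k = ∑ i, max (r_i - 1, 0)` be the number of its nonzero entries minus the number of its nonzero
rows. The size `n` and the entries are arbitrary. We prove that the Mahler measure of the
characteristic polynomial of `A` is `1` or at least `exp (c / (729 ^ k (k + 1) ^ 3))`, with an absolute
constant `c > 0`. In particular this holds for all `A` with nonzero determinant and at most `n + k`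
nonzero entries: the entropies of the toral automorphisms given by such matrices are `0` or bounded
away from `0` by a number that depends on `k` only. (The companion matrix of a monic polynomial with
`k + 2` nonzero coefficients, one of them the constant one, is of this kind. In general the
characteristic polynomials of these matrices have arbitrarily many terms, already for `k = 0`.)

More generally let `N` be a square matrix over `ℤ[X]` that is the sum of a diagonal matrix with
entries `X ^ m_i` and a matrix whose `i`-th row contains altogether `t_i` monomials. The same bound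
holds for the Mahler measure of `det N`, with `k = ∑ i, max (t_i - 1, 0)`. (For instance the
determinant `det (1 - A(X))` of a weighted digraph whose arcs have lengths.)

Proof. A row with `t_i = 0`, or with one monomial, on the diagonal, splits off a factor with at most
two terms. A row with one monomial outside the diagonal is eliminated by a column operation, which
replaces each monomial in the column `i` by a monomial in another column. When no such rows
are left, the size of the matrix is at most `k` and the determinant has at most `3 ^ k` terms. The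
starting theorem `MonomialCount` gives the bound for polynomials with few terms.
-/

set_option autoImplicit false

open Polynomial

namespace Pool.Agent.Results.MP_7ab245_nt.SparseMatrices

open Pool.Agent.Q188.LM

/-- the Mahler measure of an integer polynomial -/
noncomputable def M (F : ℤ[X]) : ℝ := (F.map (Int.castRingHom ℂ)).mahlerMeasure

theorem lm_eq (F : ℤ[X]) : Pool.Agent.H338R2.AS.lm F = Real.log (M F) :=
  logMahlerMeasure_eq_log_MahlerMeasure

theorem result : ∃ c : ℝ, 0 < c ∧
    -- characteristic polynomials
    (∀ (n : ℕ) (A : Matrix (Fin n) (Fin n) ℤ) (k : ℕ),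
      k = ∑ i, ((Finset.univ.filter fun j => A i j ≠ 0).card - 1) → 1 < M A.charpoly →
        Real.exp (c / (729 ^ k * (k + 1) ^ 3)) ≤ M A.charpoly) ∧
    -- nonsingular matrices with at most `n + k` nonzero entries
    (∀ (n : ℕ) (A : Matrix (Fin n) (Fin n) ℤ) (k : ℕ), A.det ≠ 0 →
      (Finset.univ.filter fun p : Fin n × Fin n => A p.1 p.2 ≠ 0).card ≤ n + k →
        1 < M A.charpoly → Real.exp (c / (729 ^ k * (k + 1) ^ 3)) ≤ M A.charpoly) ∧
    -- matrices of polynomials
    (∀ (n : ℕ) (m : Fin n → ℕ) (g : Matrix (Fin n) (Fin n) ℤ[X]) (k : ℕ),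
      k = ∑ i, ((∑ j, (g i j).support.card) - 1) →
        1 < M (Matrix.diagonal (fun i => X ^ m i) + g).det →
          Real.exp (c / (729 ^ k * (k + 1) ^ 3)) ≤
            M (Matrix.diagonal (fun i => X ^ m i) + g).det) := by
  obtain ⟨c, hc, h⟩ := poly_matrix
  have hlog4 : 0 < Real.log 4 := Real.log_pos (by norm_num)
  have hbd : ∀ k : ℕ, c / (64 * (Real.log 4) ^ 3) / (729 ^ k * (k + 1) ^ 3) ≤ bd c k := by
    intro k
    unfold bd
    rw [div_div]
    have h3 : (0 : ℝ) < 3 ^ k := by positivity
    have h31 : (1 : ℝ) ≤ 3 ^ k := one_le_pow₀ (by norm_num)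
    have hl : Real.log (2 * (2 * 3 ^ k)) ≤ (k + 1) * Real.log 4 := by
      have e1 : (2 * (2 * 3 ^ k) : ℝ) = 4 * 3 ^ k := by ring
      rw [e1, Real.log_mul (by norm_num) h3.ne', Real.log_pow]
      have h34 : Real.log 3 ≤ Real.log 4 := Real.log_le_log (by norm_num) (by norm_num)
      have : (k : ℝ) * Real.log 3 ≤ k * Real.log 4 :=
        mul_le_mul_of_nonneg_left h34 (Nat.cast_nonneg k)
      linarith
    have hl0 : 0 < Real.log (2 * (2 * 3 ^ k)) := Real.log_pos (by linarith)
    apply div_le_div_of_nonneg_left hc.le (by positivity)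
    have e2 : (2 * 3 ^ k : ℝ) ^ 6 = 64 * 729 ^ k := by
      rw [mul_pow, ← pow_mul, mul_comm k 6, pow_mul]
      norm_num
    rw [e2]
    have h5 : Real.log (2 * (2 * 3 ^ k)) ^ 3 ≤ ((k + 1) * Real.log 4) ^ 3 :=
      pow_le_pow_left₀ hl0.le hl 3
    calc 64 * (729 : ℝ) ^ k * Real.log (2 * (2 * 3 ^ k)) ^ 3
        ≤ 64 * (729 : ℝ) ^ k * ((k + 1) * Real.log 4) ^ 3 :=
          mul_le_mul_of_nonneg_left h5 (by positivity)
      _ = 64 * (Real.log 4) ^ 3 * (729 ^ k * (k + 1) ^ 3) := by ring
  have hanti : ∀ k l : ℕ, l ≤ k → c / (64 * (Real.log 4) ^ 3) / (729 ^ k * (k + 1) ^ 3) ≤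
      c / (64 * (Real.log 4) ^ 3) / (729 ^ l * (l + 1) ^ 3) := by
    intro k l hkl
    apply div_le_div_of_nonneg_left (by positivity) (by positivity)
    have h1 : (729 : ℝ) ^ l ≤ 729 ^ k := pow_le_pow_right₀ (by norm_num) hkl
    have h2 : (l : ℝ) + 1 ≤ k + 1 := by
      have : (l : ℝ) ≤ k := by exact_mod_cast hkl
      linarith
    have h3 : ((l : ℝ) + 1) ^ 3 ≤ (k + 1) ^ 3 := pow_le_pow_left₀ (by positivity) h2 3
    exact mul_le_mul h1 h3 (by positivity) (by positivity)
  have hgen : ∀ (n : ℕ) (m : Fin n → ℕ) (g : Matrix (Fin n) (Fin n) ℤ[X]) (k : ℕ),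
      k = ∑ i, ((∑ j, (g i j).support.card) - 1) →
        1 < M (Matrix.diagonal (fun i => X ^ m i) + g).det →
          Real.exp (c / (64 * (Real.log 4) ^ 3) / (729 ^ k * (k + 1) ^ 3)) ≤
            M (Matrix.diagonal (fun i => X ^ m i) + g).det := by
    intro n m g k hk hM
    have h1 := h n m g (by rw [lm_eq]; exact Real.log_pos hM)
    rw [lm_eq, ← hk] at h1
    rw [← Real.le_log_iff_exp_le (by linarith)]
    exact (hbd k).trans h1
  have hchar : ∀ (n : ℕ) (A : Matrix (Fin n) (Fin n) ℤ) (k : ℕ),
      k = ∑ i, ((Finset.univ.filter fun j => A i j ≠ 0).card - 1) → 1 < M A.charpoly →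
        Real.exp (c / (64 * (Real.log 4) ^ 3) / (729 ^ k * (k + 1) ^ 3)) ≤ M A.charpoly := by
    intro n A k hk hM
    have e1 : A.charpoly = (Matrix.diagonal (fun i : Fin n => (X : ℤ[X]) ^ 1) +
        Matrix.of fun i j => C (-(A i j))).det := by
      unfold Matrix.charpoly
      congr 1
      ext1 i j
      rw [Matrix.charmatrix_apply, Matrix.add_apply, Matrix.of_apply, C_neg, pow_one,
        sub_eq_add_neg]
    rw [e1] at hM ⊢
    refine hgen n (fun _ => 1) _ k ?_ hM
    rw [hk]
    refine Finset.sum_congr rfl fun i _ => ?_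
    congr 1
    rw [Finset.card_filter]
    refine Finset.sum_congr rfl fun j _ => ?_
    rw [Matrix.of_apply]
    by_cases h0 : A i j = 0
    · simp [h0]
    · have : (-(A i j)) ≠ 0 := neg_ne_zero.mpr h0
      rw [if_pos h0, Polynomial.support_C this, Finset.card_singleton]
  refine ⟨c / (64 * (Real.log 4) ^ 3), by positivity, hchar, ?_, hgen⟩
  intro n A k hdet hcard hM
  refine le_trans ?_ (hchar n A _ rfl hM)
  apply Real.exp_le_exp.mpr
  apply hanti
  have h1 : ∀ i, 1 ≤ (Finset.univ.filter fun j => A i j ≠ 0).card := by
    intro i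
    apply Finset.card_pos.mpr
    by_contra hne
    rw [Finset.not_nonempty_iff_eq_empty] at hne
    apply hdet
    refine Matrix.det_eq_zero_of_row_eq_zero i fun j => ?_
    by_contra hj
    have : j ∈ (Finset.univ.filter fun j => A i j ≠ 0) := by simp [hj]
    rw [hne] at this
    exact absurd this (Finset.notMem_empty _)
  have h2 : (Finset.univ.filter fun p : Fin n × Fin n => A p.1 p.2 ≠ 0).card =
      ∑ i, (Finset.univ.filter fun j => A i j ≠ 0).card := by
    simp only [Finset.card_filter]
    rw [Fintype.sum_prod_type]
  have h3 : ∑ i, (Finset.univ.filter fun j => A i j ≠ 0).card =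
      (∑ i, ((Finset.univ.filter fun j => A i j ≠ 0).card - 1)) + n := by
    have : ∀ i, (Finset.univ.filter fun j => A i j ≠ 0).card =
        ((Finset.univ.filter fun j => A i j ≠ 0).card - 1) + 1 := fun i => by
      have := h1 i
      omega
    rw [Finset.sum_congr rfl fun i _ => this i, Finset.sum_add_distrib]
    simp
  omega

end Pool.Agent.Results.MP_7ab245_nt.SparseMatrices
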