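import Mathlib
import Pool.Agent.Q50.TB.Fin

/-!
# Lehmer's problem for the Alexander polynomials of closed braids with few torus blocks

Lehmer's polynomial is the Alexander polynomial of the pretzel knot `(-2, 3, 7)`, and Lehmer's problem
is equivalent to the question whether the Mahler measures `> 1` of Alexander polynomials are bounded
away from `1`. We consider the braids

  `β = δ(i_1, r_1) ^ s_1 ⋯ δ(i_ℓ, r_ℓ) ^ s_ℓ`,  `s_j` arbitrary integers,

on `n` strands, where `δ(i, r) = σ_{i+r-1} ⋯ σ_{i+1}` (strands counted from `0`) is the torus braid on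
the `r ≥ 2` consecutive strands `i, …, i + r - 1`: its powers are the powers `σ ^ s` of a generator
(a twist region with `|s|` crossings) for `r = 2`, the full twists of `r` strands, and all torus
links. Products of such powers give all closed braids; with `i_j = 0` they are the `T`-links of Birman
and Kofman, among them all Lorenz links. The number of crossings is not bounded in terms of `n` and
the `r_j`.

Let `ψ` be the reduced Burau representation and let `det (1 - ψ(β)) = D C`, up to a power of `t`, with
integer polynomials `D`, `C`. (`C = 1 + t + ⋯ + t ^ (n-1)`: then `D` is the Alexander polynomial of the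
closure of `β`.) Let `S = n + r_1 + ⋯ + r_ℓ + log L(C)`, `L(C)` the length (the sum of the absolute
values of the coefficients) of `C`.

* If `D` is irreducible and `M(D) > 1`, then `M(D) ≥ exp (c / S ^ 3)` with an absolute constant
  `c > 0`. In particular this holds, with `S ≤ 2 (n + r_1 + ⋯ + r_ℓ)`, if the Alexander polynomial of
  the closure of `β` is irreducible.
* For all `D ≠ 0`, irreducible or not: `M(D) = 1` or `M(D) ≥ μ(S)`, with `μ(S) > 1` depending only on
  (an upper bound for) `S`.
* Lehmer's polynomial is the case `β = δ(0, 3) ^ 5 δ(0, 2) ^ 2`, `n = 3`, `C = 1 + t + t ^ 2`.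

Method. On the unit circle `|det (1 - ψ(β))|` is bounded by `2 ^ (n-1) ∏ (38 / |1 - t ^ r_j|) ^ (r_j - 1)`,
uniformly in the exponents `s_j`: the powers of `ψ(δ(i, r))` are computed in closed form, they differ
from the identity in `r - 1` rows, whose `ℓ¹` norms are at most `18 / |1 - t ^ r|`, and
`det (1 - B_1 ⋯ B_ℓ)` is an affine function of every row of every factor. By Jensen's formula the mean
of `log⁺ |D|` is at most `5 S`; the lower bounds `m(D) ≥ c / (1 + m⁺(D)) ^ 3` (irreducible `D`) and the
gap theorem for bounded `m⁺(D)` are theorems of the starting library (`Pool.Agent.Y947.DP`,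
`Pool.Agent.H261R2.CM`).
-/

set_option autoImplicit false

open Polynomial

namespace Pool.Agent.Results.MP_7ab245_nt.TorusBraids

open Pool.Agent.Q50.TB

theorem result :
    (∃ c : ℝ, 0 < c ∧ ∀ (N : ℕ) (w : List (ℕ × ℕ × ℤ)) (D C : ℤ[X]),
      Valid N w → Compl N w D C → C ≠ 0 → Irreducible D →
      1 < (D.map (Int.castRingHom ℂ)).mahlerMeasure →
      Real.exp (c / (size N w + Real.log (len C)) ^ 3) ≤
        (D.map (Int.castRingHom ℂ)).mahlerMeasure) ∧
    (∀ S : ℝ, ∃ μ : ℝ, 1 < μ ∧ ∀ (N : ℕ) (w : List (ℕ × ℕ × ℤ)) (D C : ℤ[X]),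
      Valid N w → Compl N w D C → C ≠ 0 → D ≠ 0 → size N w + Real.log (len C) ≤ S →
      (D.map (Int.castRingHom ℂ)).mahlerMeasure = 1 ∨
      μ ≤ (D.map (Int.castRingHom ℂ)).mahlerMeasure) ∧
    Compl 2 [(0, 3, 5), (0, 2, 2)]
      (X ^ 10 - X ^ 9 + X ^ 7 - X ^ 6 + X ^ 5 - X ^ 4 + X ^ 3 - X + 1) (1 + X + X ^ 2) :=
  ⟨irreducible_case, general_case, lehmer_example⟩

end Pool.Agent.Results.MP_7ab245_nt.TorusBraids
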