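import Pool.Agent.Q188.VG.Main

/-!
# Lehmer's problem for integer matrices with bounded growth of volumes

Let `A` be an integer matrix of any size `n`, i.e. an endomorphism of the torus of dimension `n`, and let
`G` be an inner product on `ℂ ^ n`. Suppose that in one step `A` increases the volumes of the
parallelepipeds of all dimensions `k ≤ n`, measured with `G`, at most by a bounded factor `K ^ (1/2)`
(the norm of the action of `A` on the exterior algebra; the product of the singular values
greater than one). The Mahler measure of the characteristic polynomial of `A` (the exponential of the
topological entropy) is at most this factor. We show that it is `1` or at least `μ > 1`, where `μ`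
depends only on `K` and on a lower bound `L ^ (-1/2)` for the sines of the angles between the coordinate
vectors and the hyperplanes spanned by the other ones. (All these are at least `L ^ (-1/2)` if the
quotient of the extreme eigenvalues of `G` is at most `L`.) If the characteristic polynomial of `A` is
irreducible, a bound for one of these angles is enough.

So a sequence of toral endomorphisms whose entropies are positive and tend to zero has unbounded growth of
volumes in one step, for all inner products with this property.

Proof. (1) Let `H ≥ G`, `H ≥ Bᴴ G B`; then the square of the Mahler measure of the characteristic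
polynomial of the complex matrix `B` is at most `det H / det G` (`Key`, by induction on `n`, Schur
complements). The bound for the volumes gives `H` for `B = A` with `det H ≤ K det G` (`Vol`).
(2) If `|u| = 1` and `A'` is `A` with `u` subtracted from the `i`-th diagonal entry, then there is such an
`H'` for `A'` with `det H' ≤ 2 (1 + 2 L) det H` (`Pert`). (3) If `P` is the characteristic polynomial and
`Q` the `i`-th diagonal minor of `z - A`, then `P + u Q` is the characteristic polynomial of `A'`, and the
integral of `log max(|P|, |Q|)` over the unit circle is the mean over `u` of the logarithms of the Mahler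
measures of the polynomials `P + u Q` (`Jen`). So this integral is bounded. (4) Lehmer's inequality is
known for coprime pairs of integer polynomials with this property (starting library, `gap_one`), and
some minor cancels a given zero of `P` outside the unit circle at most partially, since the sum of
the minors is the derivative of `P`.
-/

set_option autoImplicit false

open Polynomial Matrix
open scoped ComplexOrder

namespace Pool.Agent.Results.MP_7ab245_nt.VolumeGrowth

/-- The square of the `k`-dimensional volume, with respect to the inner product `x, y ↦ xᴴ G y`, of the
parallelepiped spanned by the columns of `X` (the Gram determinant). -/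
def sqVolume {n k : ℕ} (G : Matrix (Fin n) (Fin n) ℂ) (X : Matrix (Fin n) (Fin k) ℂ) : ℝ :=
  (Xᴴ * G * X).det.re

/-- In one step, `A` increases the squares of the volumes of the parallelepipeds of all dimensions,
measured with the inner product `G`, at most by the factor `K`. -/
def VolumeGrowthLe (K : ℝ) {n : ℕ} (A : Matrix (Fin n) (Fin n) ℤ) (G : Matrix (Fin n) (Fin n) ℂ) : Prop :=
  ∀ (k : ℕ) (X : Matrix (Fin n) (Fin k) ℂ),
    sqVolume G (A.map (Int.castRingHom ℂ) * X) ≤ K * sqVolume G X

/-- The square of the length of the coordinate vector `e i` (in the inner product `G`) is at most `L`
times the square of the length of every vector with `i`-th coordinate `1`, that is, `L` times the square of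
the distance of `e i` from the span of the other coordinate vectors. -/
def Transversal (L : ℝ) {n : ℕ} (G : Matrix (Fin n) (Fin n) ℂ) (i : Fin n) : Prop :=
  ∀ x : Fin n → ℂ, x i = 1 → (G i i).re ≤ L * (star x ⬝ᵥ (G *ᵥ x)).re

theorem result (L K : ℝ) : ∃ μ : ℝ, 1 < μ ∧
    ∀ (n : ℕ) (A : Matrix (Fin n) (Fin n) ℤ) (G : Matrix (Fin n) (Fin n) ℂ), G.PosDef →
      VolumeGrowthLe K A G →
      ((∀ i, Transversal L G i) ∨ (Irreducible A.charpoly ∧ ∃ i, Transversal L G i)) →
      (A.charpoly.map (Int.castRingHom ℂ)).mahlerMeasure = 1 ∨
        μ ≤ (A.charpoly.map (Int.castRingHom ℂ)).mahlerMeasure := by
  obtain ⟨c, hc, h⟩ := Pool.Agent.Q188.VG.volume_gap L K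
  exact ⟨c, hc, fun n A G hG hV hT => h n A G hG hV hT⟩

end Pool.Agent.Results.MP_7ab245_nt.VolumeGrowth
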